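import Mathlib
import Pool.Agent.Helper53.IdDefs
import Pool.Agent.Helper53.IdFinal

/-!
Eventual monotonicity in the length of optimal `r`-identifying codes in the hypercube.

`minId r n` is `Id_r(F^n)`, the minimum cardinality of an `r`-identifying code in the binary
Hamming space `Fin n → ZMod 2`.

Idea of the proof. Normalise `a n = minId r n * n ^ r / 2 ^ n`. A near-optimal code `C` of length
`m` is blown up: every coordinate becomes a block of `L` coordinates with a colouring of the
`L`-cube by a ring with `(1 - o(1)) L` elements in which every vertex can reach every colour by
flipping one coordinate; the new code asks that the vector of block parities lies in `C` and that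
`r` Vandermonde syndromes of the colours vanish. This identifies all vertices whose parity vector
is not bad; the bad parity vectors (a codeword at distance less than `r`, or all difference sets
with a common element) have density `O(1/m)` and are repaired by a crude code on a small proportion
of additional coordinates. Hence `a n ≤ (1 + o(1)) a m` for all `n` large compared with `m`.
-/

set_option autoImplicit false

namespace Pool.Agent.Results.MP_a77fb1_co.EventualMonotonicity

open Pool.Agent.Helper53.Ident

/-- For every `r ≥ 1` there is `n(r)` such that for all `n ≥ n(r)` there are `r`-identifying codes
of length `n` and `Id_r(F^n) < Id_r(F^{n+1})`. -/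
theorem result : ∀ r : ℕ, 1 ≤ r → ∃ N : ℕ, r + 1 ≤ N ∧ ∀ n : ℕ, N ≤ n →
    (sizes r n).Nonempty ∧ minId r n < minId r (n + 1) := by
  intro r hr
  obtain ⟨N, hN, h⟩ := eventually_lt hr
  exact ⟨N, hN, fun n hn => h n hn⟩

end Pool.Agent.Results.MP_a77fb1_co.EventualMonotonicity
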